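import Pool.Agent.Helper57_K9.Stmts3
import Pool.Agent.Helper66_ML.Stmts3

/-!
# Squad C2: blocks with defect groups of type `(ℓ ^ n, ℓ)`, `n ≥ 2`

Text: `AWC_C2.md`.
-/

open scoped BigOperators

noncomputable section

namespace Pool.Agent.PP.C2

open Pool.Agent.Helper51_AWC Pool.Agent.Helper79_WRA Pool.Agent.PP Pool.Agent.PP.KF
open Pool.Agent.PP.K9

attribute [local instance] Ideal.Quotient.field

section defs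

variable {F G H : Type} [Field F] [Group G] [Group H]

/-- `β` is a block of the subgroup `C`, extended by zero. -/
structure Bk (C : Subgroup G) (β : G → F) : Prop where
  off : ∀ x, x ∉ C → β x = 0
  blk : IsBlk (fun t : C => β t)

/-- the number of irreducible modular characters on which `e` acts as the identity -/
def lb (e : G → F) : ℕ := {f : G → F | f ∈ IBr F G ∧ actF e f = f}.ncard

/-- `V` is an abelian defect group of the block `e`, `γ` is a block of `C(V)` under `e`, and `T` is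
the stabiliser of `γ` in `N(V)`. -/
structure Inr (ℓ : ℕ) (e : G → F) (V : Subgroup G) (γ : G → F) (T : Subgroup G) : Prop where
  blk : IsBlk e
  tp : Tp ℓ e V
  comm : ∀ a ∈ V, ∀ b ∈ V, a * b = b * a
  gam : Bk (Subgroup.centralizer (V : Set G)) γ
  und : mulF (br V e) γ = γ
  stb : T = Subgroup.normalizer (V : Set G) ⊓ stabF γ

/-- For `w ∈ V`: `β` is the block of `C(w)` above the block `γ` of `C(V)`. -/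
structure Ab (V : Subgroup G) (γ : G → F) (w : G) (β : G → F) : Prop where
  bk : Bk (Cu w) β
  und : mulF (br V β) γ = γ

/-- `u` has order `q` and `π` is a homomorphism of its centraliser onto `H` with kernel `⟨u⟩`. -/
structure Qn (q : ℕ) (u : G) (π : Cu u →* H) : Prop where
  ord : orderOf u = q
  sur : Function.Surjective π
  ker : ∀ c : Cu u, π c = 1 ↔ (c : G) ∈ Subgroup.zpowers u

/-- `V` is abelian of type `(ℓ ^ n, ℓ)`. -/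
structure Tn (ℓ n : ℕ) (V : Subgroup G) : Prop where
  comm : ∀ a ∈ V, ∀ b ∈ V, a * b = b * a
  card : Nat.card V = ℓ ^ (n + 1)
  gen : ∃ u ∈ V, orderOf u = ℓ ^ n
  ncyc : ¬ IsCyclic V

/-- the preimage in `G` of a subgroup of a quotient `A` of `N` -/
def upm {A : Type} [Group A] {N : Subgroup G} (p : N →* A) (R : Subgroup A) : Subgroup G :=
  (R.comap p).map N.subtype

/-- `YY` of the image of `br_Q(e)` in the quotient `N(Q) / Q` -/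
def yq (ℓ : ℕ) [Finite G] (Q : Subgroup G) (e : G → F) : ℤ :=
  YY ℓ ⊤ (H75.push (QuotientGroup.mk' (Q.subgroupOf (Subgroup.normalizer (Q : Set G))))
    (fun t : Subgroup.normalizer (Q : Set G) => br Q e t))

variable (M : Ideal (integralClosure ℤ ℂ)) [M.IsMaximal]

/-- The structure of a block with defect groups of order `ℓ`: `E` virtual characters which are a
basis of those which vanish at the singular elements, with Gram matrix `I + m J`, `E m = ℓ - 1`. -/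
structure St (ℓ : ℕ) (e : G → FF M) (E m : ℕ) : Prop where
  mul : E * m + 1 = ℓ
  ex : ∃ g : Fin E → G → ℂ, (∀ i, g i ∈ ZE M e ∧ Rc ℓ (g i)) ∧
    (∀ i j, ipn (g i) (g j) = (if i = j then 1 else 0) + m) ∧
    ∀ f ∈ Submodule.span ℂ (IrrE M e), Rc ℓ f → ∃ d : Fin E → ℂ, f = ∑ i, d i • g i

/-- The alternating sum vanishes for the blocks with defect groups of type `(ℓ ^ n, ℓ)`. -/
def Awn (ℓ n : ℕ) : Prop := ∀ (G : Type) [Group G] [Finite G] (e : G → FF M), IsBlk e →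
  ∀ V : Subgroup G, Tp ℓ e V → Tn ℓ n V → YY ℓ ⊤ e = 0

end defs

/-! ## 1. Arithmetic -/

/-- CNF: Parseval's identity on a coset. -/
def CnfStmt : Prop := ∀ (ℓ : ℕ) [Fact ℓ.Prime] (n : ℕ), 1 ≤ n → ∀ ζ : ℂ,
  IsPrimitiveRoot ζ (ℓ ^ n) → ∀ (ι : Type) [Fintype ι] (a : ι → ℕ → ℤ) (A : ι → ℕ → ℂ) (K : ℂ),
  (∀ x j, A x j = ∑ s ∈ Finset.range (ℓ ^ n), (a x s : ℂ) * ζ ^ (s * j)) →
  (∀ j j' : ℕ, j.Coprime ℓ → j'.Coprime ℓ → j ≡ j' [MOD ℓ] →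
    ∑ x, A x j * starRingEnd ℂ (A x j') = if j ≡ j' [MOD ℓ ^ n] then (ℓ : ℂ) ^ n * K else 0) →
  ∀ k < ℓ ^ (n - 1), ∑ x, ∑ s ∈ Finset.range ℓ, ∑ s' ∈ Finset.range ℓ,
    ((a x (k + ℓ ^ (n - 1) * s) : ℂ) - a x (k + ℓ ^ (n - 1) * s')) ^ 2 =
      2 * ℓ * ((ℓ : ℂ) - 1) * K

/-- CNM: integral vectors. -/
def CnmStmt : Prop := ∀ (ℓ E : ℕ) (b : Fin E → ℕ → ℤ), 2 ≤ ℓ →
  (∃ i, ∃ s < ℓ, ∃ s' < ℓ, b i s ≠ b i s') →
  4 * ((ℓ : ℤ) - 1) * E ≤ ∑ s ∈ Finset.range ℓ, ∑ s' ∈ Finset.range ℓ,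
    (2 * ∑ i, (b i s - b i s') ^ 2 +
      ∑ i, ∑ i', ((b i s - b i' s) - (b i s' - b i' s')) ^ 2)

/-- CNS: functions whose Fourier transform vanishes at the numbers prime to `ℓ`. -/
def CnsStmt : Prop := ∀ (ℓ : ℕ) [Fact ℓ.Prime] (n : ℕ), 1 ≤ n → ∀ ζ : ℂ,
  IsPrimitiveRoot ζ (ℓ ^ n) → ∀ f : ℕ → ℂ,
  (∀ j : ℕ, j.Coprime ℓ → ∑ s ∈ Finset.range (ℓ ^ n), f s * ζ ^ (s * j) = 0) →
  ∀ k < ℓ ^ (n - 1), ∀ s < ℓ, ∀ s' < ℓ, f (k + ℓ ^ (n - 1) * s) = f (k + ℓ ^ (n - 1) * s')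

/-- CNT: the counting lemma. -/
def CntStmt : Prop := ∀ (ℓ : ℕ) [Fact ℓ.Prime] (n : ℕ), 2 ≤ n → ∀ ζ : ℂ,
  IsPrimitiveRoot ζ (ℓ ^ n) → ∀ (ι : Type) [Fintype ι] (X : Finset ι) (E m : ℕ)
  (A : ι → Fin E → ℕ → ℂ),
  (∀ x i, ∃ a : ℕ → ℤ, ∀ j, A x i j = ∑ s ∈ Finset.range (ℓ ^ n), (a s : ℂ) * ζ ^ (s * j)) →
  (∀ j j' : ℕ, j.Coprime ℓ → j'.Coprime ℓ → j ≡ j' [MOD ℓ] → ∀ i i',
    ∑ x, A x i j * starRingEnd ℂ (A x i' j') =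
      if j ≡ j' [MOD ℓ ^ n] then (ℓ : ℂ) ^ n * ((if i = i' then 1 else 0) + m) else 0) →
  (∀ x ∈ X, ∃ i, A x i 1 ≠ 0) →
  ∀ R : Finset ℕ, (∀ α ∈ R, α.Coprime ℓ) → (∀ α ∈ R, ∀ β ∈ R, α ≡ β [MOD ℓ] → α = β) →
  (∀ α ∈ R, ∃ c : Fin E → Fin E → ℂ, ∀ x ∈ X, ∀ i, ∀ j : ℕ, j.Coprime ℓ →
    A x i (α * j) = ∑ i', c i i' * A x i' j) →
  R.card * X.card ≤ ℓ * (E + m) * (R.card + (ℓ ^ (n - 1) - 1))

open Classical in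
/-- GRA2: `GraStmt` with the number `e` computed. -/
def Gra2Stmt : Prop := ∀ (ℓ : ℕ) [Fact ℓ.Prime] (ι : Type) [Fintype ι] (ζ : ℂ),
  IsPrimitiveRoot ζ ℓ → ∀ (a : ι → ℕ → ℤ) (δ : ℕ → ι → ℂ),
  (∀ j i, δ j i = ∑ s ∈ Finset.range ℓ, (a i s : ℂ) * ζ ^ (s * j)) →
  (∀ j ∈ Finset.Ico 1 ℓ, (∀ i, δ j i ≠ 0) ∧ ∑ i, δ j i * starRingEnd ℂ (δ j i) = ℓ) →
  (∀ j ∈ Finset.Ico 1 ℓ, ∀ j' ∈ Finset.Ico 1 ℓ, (∀ i, δ j i = δ j' i) ∨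
    ∑ i, δ j i * starRingEnd ℂ (δ j' i) = 0) →
  ∀ E : ℕ, E = ((Finset.Ico 1 ℓ).filter (fun b => ∀ i, δ b i = δ 1 i)).card →
  ∃ (m : ℕ) (b : Fin m → ι → ℤ) (cl : ℕ → Fin m), 0 < m ∧ E * m + 1 = ℓ ∧
    (∀ s ∈ Finset.Ico 1 ℓ, ∀ i, a i s - a i 0 = b (cl s) i) ∧
    (∀ j, ∃ s ∈ Finset.Ico 1 ℓ, cl s = j) ∧
    (∀ j j', ∑ i, b j i * b j' i = (if j = j' then 1 else 0) + E) ∧ ∀ i, ∃ j, b j i ≠ 0

open Classical in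
/-- GRC: the lattice of the block. -/
def GrcStmt : Prop := ∀ (ℓ : ℕ) [Fact ℓ.Prime] (ι : Type) [Fintype ι] (ζ : ℂ),
  IsPrimitiveRoot ζ ℓ → ∀ (a : ι → ℕ → ℤ) (δ : ℕ → ι → ℂ),
  (∀ j i, δ j i = ∑ s ∈ Finset.range ℓ, (a i s : ℂ) * ζ ^ (s * j)) →
  (∀ j ∈ Finset.Ico 1 ℓ, (∀ i, δ j i ≠ 0) ∧ ∑ i, δ j i * starRingEnd ℂ (δ j i) = ℓ) →
  (∀ j ∈ Finset.Ico 1 ℓ, ∀ j' ∈ Finset.Ico 1 ℓ, (∀ i, δ j i = δ j' i) ∨
    ∑ i, δ j i * starRingEnd ℂ (δ j' i) = 0) →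
  ∀ E m : ℕ, E = ((Finset.Ico 1 ℓ).filter (fun b => ∀ i, δ b i = δ 1 i)).card →
  E * m + 1 = ℓ → E + m ≤ Fintype.card ι → Fintype.card ι = E + m ∧
  ∃ g : Fin E → ι → ℤ, (∀ i j, ∑ x, g i x * g j x = (if i = j then 1 else 0) + m) ∧
    (∀ j ∈ Finset.Ico 1 ℓ, ∀ i, ∑ x, (g i x : ℂ) * δ j x = 0) ∧
    ∀ f : ι → ℂ, (∀ j ∈ Finset.Ico 1 ℓ, ∑ x, f x * δ j x = 0) →
      ∃ d : Fin E → ℂ, ∀ x, f x = ∑ i, d i * g i x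

/-! ## 2. Characters -/

/-- INT2: integrality. -/
def Int2Stmt : Prop := ∀ (ℓ : ℕ) [Fact ℓ.Prime] (n : ℕ) (G H : Type) [Group G] [Finite G]
  [Group H] [Finite H] (u : G) (π : Cu u →* H), Qn (ℓ ^ n) u π → ∀ p ∈ ZI H, Rc ℓ p →
  ∀ χ ∈ Irr G, ∀ ζ : ℂ, IsPrimitiveRoot ζ (ℓ ^ n) → ∃ m : ℕ → ℤ, ∀ j : ℕ,
    Av ℓ π (u ^ j) p χ = ∑ i ∈ Finset.range (ℓ ^ n), (m i : ℂ) * ζ ^ (i * j)

/-- SEC2: orthogonality relations. -/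
def Sec2Stmt : Prop := ∀ (ℓ : ℕ) [Fact ℓ.Prime] (n : ℕ) (G H : Type) [Group G] [Finite G]
  [Group H] [Finite H] (u : G) (π : Cu u →* H), Qn (ℓ ^ n) u π → ∀ p q : H → ℂ, Rc ℓ p → Rc ℓ q →
  ∀ j : ℕ, j.Coprime ℓ →
    ∑ᶠ χ ∈ Irr G, Av ℓ π (u ^ j) p χ * starRingEnd ℂ (Av ℓ π (u ^ j) q χ) =
      (ℓ : ℂ) ^ n * ipn q p ∧
    ∀ j' : ℕ, j'.Coprime ℓ → (¬ ∃ t : G, u ^ j' = t * u ^ j * t⁻¹) →
      ∑ᶠ χ ∈ Irr G, Av ℓ π (u ^ j) p χ * starRingEnd ℂ (Av ℓ π (u ^ j') q χ) = 0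

/-- TAU: conjugation by an element `t` which normalises `⟨u⟩`. -/
def TauStmt : Prop := ∀ (ℓ q : ℕ) (G H : Type) [Group G] [Finite G] [Group H] [Finite H]
  (u : G) (π : Cu u →* H), Qn q u π → ∀ t : G, t * u * t⁻¹ ∈ Subgroup.zpowers u →
  ∃ τ : H ≃* H, (∀ s s' : Cu u, (s' : G) = t * s * t⁻¹ → π s' = τ (π s)) ∧
    (∀ s : Cu u, t * (s : G) * t⁻¹ ∈ Cu u) ∧
    ∀ (w : G) (p : H → ℂ), ∀ χ ∈ Irr G,
      Av ℓ π (t * w * t⁻¹) p χ = Av ℓ π w (fun h => p (τ h)) χ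

/-- PRG2: the projective character. -/
def Prg2Stmt : Prop := ∀ (ℓ : ℕ) [Fact ℓ.Prime] (M : Ideal (integralClosure ℤ ℂ)) [M.IsMaximal],
  (ℓ : integralClosure ℤ ℂ) ∈ M → ∀ (n : ℕ) (G H : Type) [Group G] [Finite G] [Group H]
  [Finite H] (u : G) (π : Cu u →* H), Qn (ℓ ^ n) u π → ∀ b : Cu u → FF M, IsIdem b →
  ∀ w ∈ Subgroup.zpowers u, ∀ χ ∈ Irr G,
    Av ℓ π w (pr M (H75.push π b)) χ = gbv (Cu u) w (eh M b) χ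

/-- PSN: the image of a block modulo a central `ℓ`-subgroup is a block. -/
def PsnStmt : Prop := ∀ (ℓ : ℕ) [Fact ℓ.Prime] (F : Type) [Field F], GoodF ℓ F → ∀ (A B : Type)
  [Group A] [Finite A] [Group B] [Finite B] (p : A →* B), Function.Surjective p →
  IsPGroup ℓ p.ker → p.ker ≤ Subgroup.center A → ∀ e : A → F, IsBlk e → IsBlk (H75.push p e)

/-! ## 3. Groups and fusion -/

/-- INE: existence of `γ` and `T`. -/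
def IneStmt : Prop := ∀ (ℓ : ℕ) [Fact ℓ.Prime] (F : Type) [Field F], GoodF ℓ F → ∀ (G : Type)
  [Group G] [Finite G] (e : G → F), IsBlk e → ∀ V : Subgroup G, Tp ℓ e V →
  (∀ a ∈ V, ∀ b ∈ V, a * b = b * a) → ∃ (γ : G → F) (T : Subgroup G), Inr ℓ e V γ T

/-- EXB: existence and uniqueness of the block `β` of `C(w)` above `γ`. -/
def ExbStmt : Prop := ∀ (ℓ : ℕ) [Fact ℓ.Prime] (F : Type) [Field F], GoodF ℓ F → ∀ (G : Type)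
  [Group G] [Finite G] (e : G → F) (V : Subgroup G) (γ : G → F) (T : Subgroup G),
  Inr ℓ e V γ T → ∀ w ∈ V, ∃ β : G → F, Ab V γ w β ∧
    mulF (fun t : Cu w => e t) (fun t : Cu w => β t) = (fun t : Cu w => β t) ∧
    Tp ℓ (fun t : Cu w => β t) (V.subgroupOf (Cu w)) ∧
    (∀ β' : G → F, Ab V γ w β' → β' = β) ∧
    ∀ t ∈ T, Ab V γ (t * w * t⁻¹) (fun x => β (t⁻¹ * x * t))

/-- INU: the situation in `C(w)`. -/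
def InuStmt : Prop := ∀ (ℓ : ℕ) [Fact ℓ.Prime] (F : Type) [Field F], GoodF ℓ F → ∀ (G : Type)
  [Group G] [Finite G] (e : G → F) (V : Subgroup G) (γ : G → F) (T : Subgroup G),
  Inr ℓ e V γ T → ∀ w ∈ V, ∀ β : G → F, Ab V γ w β →
    Inr ℓ (fun t : Cu w => β t) (V.subgroupOf (Cu w)) (fun t : Cu w => γ t)
      (T.subgroupOf (Cu w))

/-- FUS: `T` controls the fusion. -/
def FusStmt : Prop := ∀ (ℓ : ℕ) [Fact ℓ.Prime] (M : Ideal (integralClosure ℤ ℂ)) [M.IsMaximal],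
  (ℓ : integralClosure ℤ ℂ) ∈ M → ∀ (G : Type) [Group G] [Finite G] (e : G → FF M)
  (V : Subgroup G) (γ : G → FF M) (T : Subgroup G), Inr ℓ e V γ T →
  ∀ w ∈ V, ∀ w' ∈ V, ∀ β β' : G → FF M, Ab V γ w β → Ab V γ w' β' →
  ∀ g : G, w' = g * w * g⁻¹ → (∀ x, β' (g * x * g⁻¹) = β x) → ∃ c ∈ Cu w', c * g ∈ T

/-- COL: the number of columns. -/
def ColStmt : Prop := ∀ (ℓ : ℕ) [Fact ℓ.Prime] (M : Ideal (integralClosure ℤ ℂ)) [M.IsMaximal],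
  (ℓ : integralClosure ℤ ℂ) ∈ M → ∀ (G : Type) [Group G] [Finite G] (e : G → FF M)
  (V : Subgroup G) (γ : G → FF M) (T : Subgroup G), Inr ℓ e V γ T →
  ∀ (W : Set G) (L : G → ℕ), (∀ w ∈ W, w ∈ V ∧ w ≠ 1) → (∀ t ∈ T, ∀ w ∈ W, t * w * t⁻¹ ∈ W) →
  (∀ w ∈ W, ∀ β : G → FF M, Ab V γ w β → L w ≤ lb (fun t : Cu w => β t)) →
  ∑ᶠ w ∈ W, L w * (Subgroup.centralizer (V : Set G)).relIndex (T ⊓ Cu w) +
    (Subgroup.centralizer (V : Set G)).relIndex T * lb e ≤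
      (Subgroup.centralizer (V : Set G)).relIndex T * (IrrE M e).ncard

/-- UEX: an invariant cyclic subgroup of order `ℓ ^ n`. -/
def UexStmt : Prop := ∀ (ℓ : ℕ) [Fact ℓ.Prime] (M : Ideal (integralClosure ℤ ℂ)) [M.IsMaximal],
  (ℓ : integralClosure ℤ ℂ) ∈ M → ∀ (G : Type) [Group G] [Finite G] (e : G → FF M)
  (V : Subgroup G) (γ : G → FF M) (T : Subgroup G), Inr ℓ e V γ T → ∀ n : ℕ, 2 ≤ n →
  Tn ℓ n V → ∃ u ∈ V, orderOf u = ℓ ^ n ∧ ∀ t ∈ T, t * u * t⁻¹ ∈ Subgroup.zpowers u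

/-- TYQ: noncyclic quotients of a group of type `(ℓ ^ n, ℓ)`. -/
def TyqStmt : Prop := ∀ (ℓ : ℕ) [Fact ℓ.Prime] (P A : Type) [Group P] [Finite P] [Group A]
  (n : ℕ), 1 ≤ n → (∀ a b : P, a * b = b * a) → Nat.card P = ℓ ^ (n + 1) →
  (∃ u : P, orderOf u = ℓ ^ n) → ¬ IsCyclic P → ∀ p : P →* A, Function.Surjective p →
  ¬ IsCyclic A → ∃ i : ℕ, 1 ≤ i ∧ i ≤ n ∧ Nat.card A = ℓ ^ (i + 1) ∧
    (∃ a : A, orderOf a = ℓ ^ i) ∧ (∀ a b : A, a * b = b * a) ∧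
    ∀ x : P, x ∈ p.ker ↔ ∃ y : P, y ^ ℓ ^ i = x

/-! ## 4. The bound -/

/-- NRM: the blocks of `N(V)`. -/
def NrmStmt : Prop := ∀ (ℓ : ℕ) [Fact ℓ.Prime] (M : Ideal (integralClosure ℤ ℂ)) [M.IsMaximal],
  (ℓ : integralClosure ℤ ℂ) ∈ M → ∀ (G : Type) [Group G] [Finite G] (e : G → FF M)
  (V : Subgroup G) (γ : G → FF M) (T : Subgroup G), Inr ℓ e V γ T →
  (∃ t₀ ∈ T, ∀ t ∈ T, ∃ k : ℕ, t₀ ^ k * t ∈ Subgroup.centralizer (V : Set G)) →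
  (Subgroup.centralizer (V : Set G)).relIndex T ≤
    lb (fun t : Subgroup.normalizer (V : Set G) => br V e t)

/-- CYC: blocks with defect groups of order `ℓ`. -/
def CycStmt : Prop := ∀ (ℓ : ℕ) [Fact ℓ.Prime] (M : Ideal (integralClosure ℤ ℂ)) [M.IsMaximal],
  (ℓ : integralClosure ℤ ℂ) ∈ M → ∀ (G : Type) [Group G] [Finite G] (e : G → FF M), IsBlk e →
  ∀ V : Subgroup G, Tp ℓ e V → Nat.card V = ℓ →
  lb e = lb (fun t : Subgroup.normalizer (V : Set G) => br V e t)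

/-- LBU: lower bound for the block of `C(u)`. -/
def LbuStmt : Prop := ∀ (ℓ : ℕ) [Fact ℓ.Prime] (M : Ideal (integralClosure ℤ ℂ)) [M.IsMaximal],
  (ℓ : integralClosure ℤ ℂ) ∈ M → ∀ (G : Type) [Group G] [Finite G] (e : G → FF M)
  (V : Subgroup G) (γ : G → FF M) (T : Subgroup G), Inr ℓ e V γ T →
  ∀ u ∈ V, Nat.card V = ℓ * orderOf u → ∀ β : G → FF M, Ab V γ u β →
  (Subgroup.centralizer (V : Set G)).relIndex (T ⊓ Cu u) ≤ lb (fun t : Cu u => β t)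

/-- DTN: the vectors of a block with a defect group of order `ℓ`. -/
def DtnStmt : Prop := ∀ (ℓ : ℕ) [Fact ℓ.Prime] (M : Ideal (integralClosure ℤ ℂ)) [M.IsMaximal],
  (ℓ : integralClosure ℤ ℂ) ∈ M → ∀ (G H : Type) [Group G] [Finite G] [Group H] [Finite H]
  (e : G → FF M) (v : G) (γ : G → FF M) (T : Subgroup G), Inr ℓ e (Subgroup.zpowers v) γ T →
  ∀ π : Cu v →* H, Qt ℓ v π → ∀ κ : H → ℂ, Rc ℓ κ →
  IrrE M (H75.push π (fun t : Cu v => γ t)) = {κ} →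
  ∀ j ∈ Finset.Ico 1 ℓ, ∀ j' ∈ Finset.Ico 1 ℓ,
    ((∃ t ∈ T, v ^ j' = t * v ^ j * t⁻¹) →
      ∀ χ ∈ Irr G, Av ℓ π (v ^ j') κ χ = Av ℓ π (v ^ j) κ χ) ∧
    ((¬ ∃ t ∈ T, v ^ j' = t * v ^ j * t⁻¹) →
      ∑ᶠ χ ∈ Irr G, Av ℓ π (v ^ j) κ χ * starRingEnd ℂ (Av ℓ π (v ^ j') κ χ) = 0)

/-- STA: the structure of the blocks with defect groups of order `ℓ`. -/
def StaStmt : Prop := ∀ (ℓ : ℕ) [Fact ℓ.Prime] (M : Ideal (integralClosure ℤ ℂ)) [M.IsMaximal],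
  (ℓ : integralClosure ℤ ℂ) ∈ M → ∀ (G : Type) [Group G] [Finite G] (e : G → FF M), IsBlk e →
  ∀ V : Subgroup G, Tp ℓ e V → Nat.card V = ℓ → ∃ m : ℕ, St M ℓ e (lb e) m

/-- BN1: the number of ordinary characters. -/
def Bn1Stmt : Prop := ∀ (ℓ : ℕ) [Fact ℓ.Prime] (M : Ideal (integralClosure ℤ ℂ)) [M.IsMaximal],
  (ℓ : integralClosure ℤ ℂ) ∈ M → ∀ (G : Type) [Group G] [Finite G] (e : G → FF M)
  (V : Subgroup G) (γ : G → FF M) (T : Subgroup G), Inr ℓ e V γ T → ∀ n : ℕ, 2 ≤ n →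
  Tn ℓ n V → ∀ u ∈ V, orderOf u = ℓ ^ n → (∀ t ∈ T, t * u * t⁻¹ ∈ Subgroup.zpowers u) →
  ∀ β : G → FF M, Ab V γ u β → ∃ m : ℕ, lb (fun t : Cu u => β t) * m + 1 = ℓ ∧
    (T ⊓ Cu u).relIndex T * (IrrE M e).ncard ≤
      ℓ * (lb (fun t : Cu u => β t) + m) * ((T ⊓ Cu u).relIndex T + (ℓ ^ (n - 1) - 1))

/-- BN2: the columns of order `ℓ ^ n`. -/
def Bn2Stmt : Prop := ∀ (ℓ : ℕ) [Fact ℓ.Prime] (M : Ideal (integralClosure ℤ ℂ)) [M.IsMaximal],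
  (ℓ : integralClosure ℤ ℂ) ∈ M → ∀ (G : Type) [Group G] [Finite G] (e : G → FF M)
  (V : Subgroup G) (γ : G → FF M) (T : Subgroup G), Inr ℓ e V γ T → ∀ n : ℕ, 2 ≤ n →
  Tn ℓ n V → ∀ u ∈ V, orderOf u = ℓ ^ n → (∀ t ∈ T, t * u * t⁻¹ ∈ Subgroup.zpowers u) →
  ∀ β : G → FF M, Ab V γ u β → ∀ m : ℕ, lb (fun t : Cu u => β t) * m + 1 = ℓ →
    ℓ ^ (n - 1) * (ℓ - 1) * (lb (fun t : Cu u => β t) + m) + (T ⊓ Cu u).relIndex T * lb e ≤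
      (T ⊓ Cu u).relIndex T * (IrrE M e).ncard

/-- BND: a block with defect groups of type `(ℓ ^ n, ℓ)` has at most `ℓ ^ n` irreducible modular
characters. -/
def BndStmt : Prop := ∀ (ℓ : ℕ) [Fact ℓ.Prime] (M : Ideal (integralClosure ℤ ℂ)) [M.IsMaximal],
  (ℓ : integralClosure ℤ ℂ) ∈ M → ∀ (G : Type) [Group G] [Finite G] (e : G → FF M), IsBlk e →
  ∀ V : Subgroup G, Tp ℓ e V → ∀ n : ℕ, 2 ≤ n → Tn ℓ n V → lb e ≤ ℓ ^ n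

/-! ## 5. Chains -/

/-- REC: the smallest nontrivial member of a chain. -/
def RecStmt : Prop := ∀ (ℓ : ℕ) [Fact ℓ.Prime] (F : Type) [Field F], GoodF ℓ F → ∀ (G : Type)
  [Group G] [Finite G] (e : G → F), IsIdem e →
  YY ℓ ⊤ e = (Nat.card G : ℤ) * lnum (⊤ : Subgroup G) e -
    ∑ᶠ (Q : Subgroup G) (_ : IsPGroup ℓ Q ∧ Q ≠ ⊥), (Nat.card Q : ℤ) * yq ℓ Q e

/-- COVN: covering blocks and good subgroups. -/
def CovnStmt : Prop := ∀ (ℓ : ℕ) [Fact ℓ.Prime] (F : Type) [Field F], GoodF ℓ F → ∀ (X : Type)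
  [Group X] [Finite X] (Y : Subgroup X), Y.Normal → ∀ b : X → F, Bk Y b → ∀ e : X → F,
  IsIdem e → mulF e b ≠ 0 → ∀ Q : Subgroup X, Q ≤ Y → IsPGroup ℓ Q → Gd b Q → Gd e Q

/-- DUG: the blocks of `C(Q)` have larger defect groups than `Q`. -/
def DugStmt : Prop := ∀ (ℓ : ℕ) [Fact ℓ.Prime] (M : Ideal (integralClosure ℤ ℂ)) [M.IsMaximal],
  (ℓ : integralClosure ℤ ℂ) ∈ M → ∀ (G : Type) [Group G] [Finite G] (e : G → FF M), IsBlk e →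
  ∀ V : Subgroup G, Tp ℓ e V → (∀ a ∈ V, ∀ b ∈ V, a * b = b * a) → ∀ Q : Subgroup G,
  IsPGroup ℓ Q → (∀ a ∈ Q, ∀ b ∈ Q, a * b = b * a) → Nat.card Q < Nat.card V →
  ∀ g : G → FF M, Bk (Subgroup.centralizer (Q : Set G)) g → mulF (br Q e) g = g →
  ∃ P : Subgroup G, IsPGroup ℓ P ∧ Q < P ∧ P ≤ Subgroup.centralizer (Q : Set G) ∧
    (∀ a ∈ P, ∀ b ∈ P, a * b = b * a) ∧ Gd g P

/-- GDV: the blocks of `C(Q)` have defect groups of order `|V|`. -/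
def GdvStmt : Prop := ∀ (ℓ : ℕ) [Fact ℓ.Prime] (M : Ideal (integralClosure ℤ ℂ)) [M.IsMaximal],
  (ℓ : integralClosure ℤ ℂ) ∈ M → ∀ (G : Type) [Group G] [Finite G] (e : G → FF M), IsBlk e →
  ∀ V : Subgroup G, Tp ℓ e V → (∀ a ∈ V, ∀ b ∈ V, a * b = b * a) → ∀ Q : Subgroup G,
  IsPGroup ℓ Q → ∀ g : G → FF M, Bk (Subgroup.centralizer (Q : Set G)) g →
  mulF (br Q e) g = g → ∃ P : Subgroup G, IsPGroup ℓ P ∧ Q ≤ P ∧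
    P ≤ Subgroup.centralizer (Q : Set G) ∧ Nat.card P = Nat.card V ∧ Gd g P

/-- DUV: the blocks of `N(Q) / Q`. -/
def DuvStmt : Prop := ∀ (ℓ : ℕ) [Fact ℓ.Prime] (M : Ideal (integralClosure ℤ ℂ)) [M.IsMaximal],
  (ℓ : integralClosure ℤ ℂ) ∈ M → ∀ (G : Type) [Group G] [Finite G] (e : G → FF M), IsBlk e →
  ∀ V : Subgroup G, Tp ℓ e V → (∀ a ∈ V, ∀ b ∈ V, a * b = b * a) → ∀ Q : Subgroup G,
  IsPGroup ℓ Q → ∀ (A : Type) [Group A] [Finite A] (p : Subgroup.normalizer (Q : Set G) →* A),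
  Function.Surjective p → p.ker = Q.subgroupOf (Subgroup.normalizer (Q : Set G)) →
  ∀ f : A → FF M, IsBlk f →
  mulF (H75.push p (fun t : Subgroup.normalizer (Q : Set G) => br Q e t)) f = f →
  ∃ R : Subgroup A, Tp ℓ f R ∧ ∃ g : G, upm p R = conjS g V

/-- CHS: `ChqStmt` for idempotents whose blocks have defect groups of order `ℓ ^ 2`. -/
def ChsStmt : Prop := ∀ (ℓ : ℕ) [Fact ℓ.Prime] (M : Ideal (integralClosure ℤ ℂ)) [M.IsMaximal],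
  (ℓ : integralClosure ℤ ℂ) ∈ M → ∀ (A : Type) [Group A] [Finite A] (f : A → FF M), IsIdem f →
  (∀ c : A → FF M, IsBlk c → mulF f c = c → ∃ V : Subgroup A, Tp ℓ c V ∧ Nat.card V = ℓ ^ 2) →
  YY ℓ ⊤ f = (Nat.card A : ℤ) * lnum (⊤ : Subgroup A) f -
    ∑ᶠ (V : Subgroup A) (_ : Nat.card V = ℓ ^ 2),
      (Nat.card (Subgroup.normalizer (V : Set A)) : ℤ) *
        lnum (Subgroup.normalizer (V : Set A)) f

/-- YQZ: the terms which vanish. -/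
def YqzStmt : Prop := ∀ (ℓ : ℕ) [Fact ℓ.Prime] (M : Ideal (integralClosure ℤ ℂ)) [M.IsMaximal],
  (ℓ : integralClosure ℤ ℂ) ∈ M → ∀ n : ℕ, 2 ≤ n → (∀ i, 2 ≤ i → i < n → Awn M ℓ i) →
  ∀ (G : Type) [Group G] [Finite G] (e : G → FF M), IsBlk e → ∀ V : Subgroup G, Tp ℓ e V →
  Tn ℓ n V → ∀ Q₁ : Subgroup G, (∀ x, x ∈ Q₁ ↔ ∃ y ∈ V, y ^ ℓ = x) → ∀ Q : Subgroup G,
  IsPGroup ℓ Q → Q ≠ ⊥ → Nat.card Q ≠ Nat.card V → (¬ ∃ g : G, Q = conjS g Q₁) → yq ℓ Q e = 0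

/-- YQN: the term for `Q₁`. -/
def YqnStmt : Prop := ∀ (ℓ : ℕ) [Fact ℓ.Prime] (M : Ideal (integralClosure ℤ ℂ)) [M.IsMaximal],
  (ℓ : integralClosure ℤ ℂ) ∈ M → ∀ n : ℕ, 2 ≤ n → ∀ (G : Type) [Group G] [Finite G]
  (e : G → FF M), IsBlk e → ∀ V : Subgroup G, Tp ℓ e V → Tn ℓ n V →
  ∀ Q₁ : Subgroup G, (∀ x, x ∈ Q₁ ↔ ∃ y ∈ V, y ^ ℓ = x) →
  ∃ f : Subgroup.normalizer (Q₁ : Set G) → FF M, IsBlk f ∧
    Tp ℓ f (V.subgroupOf (Subgroup.normalizer (Q₁ : Set G))) ∧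
    (Nat.card Q₁ : ℤ) * yq ℓ Q₁ e =
      (Nat.card (Subgroup.normalizer (Q₁ : Set G)) : ℤ) * ((lb f : ℤ) -
        (lb (fun t : Subgroup.normalizer (V : Set G) => br V e t) : ℤ))

/-- YQV: the terms with `|Q| = |V|`. -/
def YqvStmt : Prop := ∀ (ℓ : ℕ) [Fact ℓ.Prime] (M : Ideal (integralClosure ℤ ℂ)) [M.IsMaximal],
  (ℓ : integralClosure ℤ ℂ) ∈ M → ∀ (G : Type) [Group G] [Finite G] (e : G → FF M), IsBlk e →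
  ∀ V : Subgroup G, Tp ℓ e V → ∀ Q : Subgroup G, IsPGroup ℓ Q → Nat.card Q = Nat.card V →
  (Nat.card Q : ℤ) * yq ℓ Q e = (Nat.card (Subgroup.normalizer (Q : Set G)) : ℤ) *
    lnum (Subgroup.normalizer (Q : Set G)) e

/-- CHN: the alternating sum is a difference of two numbers of modular characters. -/
def ChnStmt : Prop := ∀ (ℓ : ℕ) [Fact ℓ.Prime] (M : Ideal (integralClosure ℤ ℂ)) [M.IsMaximal],
  (ℓ : integralClosure ℤ ℂ) ∈ M → ∀ n : ℕ, 2 ≤ n → (∀ i, 2 ≤ i → i < n → Awn M ℓ i) →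
  ∀ (G : Type) [Group G] [Finite G] (e : G → FF M), IsBlk e → ∀ V : Subgroup G, Tp ℓ e V →
  Tn ℓ n V → ∃ (X : Type) (_ : Group X) (_ : Finite X) (f : X → FF M) (V' : Subgroup X),
    IsBlk f ∧ Tp ℓ f V' ∧ Tn ℓ n V' ∧ YY ℓ ⊤ e = (Nat.card G : ℤ) * ((lb e : ℤ) - (lb f : ℤ))

/-! ## 6. The theorem -/

/-- TDF: defect groups. -/
def TdfStmt : Prop := ∀ (ℓ : ℕ) [Fact ℓ.Prime] (M : Ideal (integralClosure ℤ ℂ)) [M.IsMaximal],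
  (ℓ : integralClosure ℤ ℂ) ∈ M → ∀ (G : Type) [Group G] [Finite G] (e : G → FF M), IsBlk e →
  ∀ V : Subgroup G, Tp ℓ e V → ∀ χ ∈ Irr G, res M e χ = 1 → ML.IsDef ℓ M χ V

/-- DTF: defect groups. -/
def DtfStmt : Prop := ∀ (ℓ : ℕ) [Fact ℓ.Prime] (M : Ideal (integralClosure ℤ ℂ)) [M.IsMaximal],
  (ℓ : integralClosure ℤ ℂ) ∈ M → ∀ (G : Type) [Group G] [Finite G] (e : G → FF M), IsBlk e →
  ∀ χ ∈ Irr G, res M e χ = 1 → ∀ D : Subgroup G, ML.IsDef ℓ M χ D → Tp ℓ e D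

/-- DIV: the order of an element of the defect group divides the alternating sum. -/
def DivStmt : Prop := ∀ (ℓ : ℕ) [Fact ℓ.Prime] (M : Ideal (integralClosure ℤ ℂ)) [M.IsMaximal],
  (ℓ : integralClosure ℤ ℂ) ∈ M → ∀ (G : Type) [Group G] [Finite G], opCore ℓ G = ⊥ →
  ∀ e : G → FF M, IsBlk e → ∀ V : Subgroup G, Tp ℓ e V → (∀ a ∈ V, ∀ b ∈ V, a * b = b * a) →
  ∀ χ ∈ Irr G, res M e χ = 1 → ∀ z ∈ V, ((orderOf z : ℕ) : ℤ) ∣ altSum ℓ M χ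

/-- AWN: the alternating sum vanishes. -/
def AwnStmt : Prop := ∀ (ℓ : ℕ) [Fact ℓ.Prime] (M : Ideal (integralClosure ℤ ℂ)) [M.IsMaximal],
  (ℓ : integralClosure ℤ ℂ) ∈ M → ∀ n : ℕ, 2 ≤ n → Awn M ℓ n

/-- FIN: the final theorem. -/
def FinC2Stmt : Prop := ∀ (ℓ : ℕ) [Fact ℓ.Prime] (M : Ideal (integralClosure ℤ ℂ)) [M.IsMaximal],
  (ℓ : integralClosure ℤ ℂ) ∈ M → ∀ (G : Type) [Group G] [Finite G],
  opCore ℓ G ≤ Subgroup.center G → ∀ χ ∈ Irr G, ∀ D : Subgroup G, ML.IsDef ℓ M χ D →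
  ¬ D ≤ opCore ℓ G → (∀ a ∈ D, ∀ b ∈ D, a * b * a⁻¹ * b⁻¹ ∈ opCore ℓ G) →
  ∀ u ∈ D, (opCore ℓ G ⊔ Subgroup.zpowers u).relIndex D ≤ ℓ →
  (opCore ℓ G).relIndex D ≠ ℓ ^ 2 → altSum ℓ M χ = 0

/-- FIR: the relative form for `ℓ = 2`, `3`. -/
def FirStmt : Prop := ∀ (ℓ : ℕ) [Fact ℓ.Prime], ℓ ≤ 3 →
  ∀ (M : Ideal (integralClosure ℤ ℂ)) [M.IsMaximal],
  (ℓ : integralClosure ℤ ℂ) ∈ M → ∀ (G : Type) [Group G] [Finite G],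
  opCore ℓ G ≤ Subgroup.center G → ∀ N : Subgroup G, N.Normal →
  ∀ χ ∈ Irr G, ∀ ψ ∈ Irr N, (∑ᶠ n : N, χ n * starRingEnd ℂ (ψ n)) ≠ 0 → LargeDefect ℓ M ψ →
  (∃ (x : N) (P : Subgroup N), ¬ Cong M (omega (MonoidHom.id N) ψ x) 0 ∧
    P ≤ Subgroup.centralizer ({x} : Set N) ∧ IsPGroup ℓ P ∧
    ¬ ℓ ∣ P.relIndex (Subgroup.centralizer ({x} : Set N)) ∧
    (∀ a ∈ P, ∀ b ∈ P, a * b * a⁻¹ * b⁻¹ ∈ opCore ℓ N) ∧
    ∃ u ∈ P, (opCore ℓ N ⊔ Subgroup.zpowers u).relIndex P ≤ ℓ) →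
  altSum ℓ M χ = 0

end Pool.Agent.PP.C2
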